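import Pool.Agent.Helper47_UTR.Asm
import Pool.Agent.Helper90_UTR.CHN
import Pool.Agent.Helper3_UTR.ENB
import Pool.Agent.Helper20_UTR.EQV
import Pool.Agent.Helper33_UTR.Fin
import Pool.Agent.Helper34_UTR.FRM
import Pool.Agent.Helper27_UTR.GEN
import Pool.Agent.Helper56_UTR.GR1
import Pool.Agent.Helper10_UTR.GR2
import Pool.Agent.Helper90_UTR.GRM
import Pool.Agent.Helper33_UTR.Ksy
import Pool.Agent.Helper90_UTR.LEF
import Pool.Agent.Helper9_UTR.PEL
import Pool.Agent.Helper3_UTR.PRJ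
import Pool.Agent.Helper33_UTR.Stp
import Pool.Agent.Helper9_UTR.TRE

/-!
# Assembly of the tree theorem, all rows cited (problem MP_3b0ba7_pr)
-/

open MeasureTheory Matrix Finset

namespace Pool.Agent.UTR.H47

open Pool.Agent.Helper64_FR

theorem grm : GRMStmt := H90.grm H56.gr1 H10.gr2

theorem ksy : KSYStmt := H33.ksy H20.eqv H27.gen

theorem frm : FRMStmt := H34.frm H20.eqv grm ksy

theorem stp : STPStmt := H33.stp H3.prj H3.enb

theorem fin : FINStmt := H33.fin (H90.chn frm stp)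

theorem pel : PELStmt := H9.pel H90.lef

/-- the tree theorem and the general chain bound -/
theorem trees (n : ℕ) (hn : 2 ≤ n) (w : Finset (Fin n) → ℝ) (hw : ∀ B, 0 ≤ w B)
    (α ρ : URep n) (hα : α.IsAdjoint) (hρ : ρ.Irred) (hnt : ¬ ∀ g : UU n, ρ.mat g = 1) :
    (∀ μ : ℝ, Chain w μ Finset.univ → μ ≤ ρ.lamMin w) ∧
    (Peel w Finset.univ → α.lamMin w ≤ ρ.lamMin w) ∧
    (∀ G : SimpleGraph (Fin n), G.IsAcyclic →
      (∀ B, w B ≠ 0 → 2 ≤ B.card → ∃ i j, G.Adj i j ∧ B = {i, j}) →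
      α.lamMin w ≤ ρ.lamMin w) :=
  ⟨fun μ hμ => fin n hn w hw μ hμ ρ hρ hnt,
   fun hp => peel_main fin pel H33.onu n hn w hw hp α ρ hα hρ hnt,
   fun G hG hs => tree_main fin pel H33.onu H9.tre n hn G hG w hw hs α ρ hα hρ hnt⟩

end Pool.Agent.UTR.H47
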