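import Pool.Agent.UTR.Stmts

/-!
# Assembly of the tree theorem (problem MP_3b0ba7_pr)
-/

open MeasureTheory Matrix Finset

namespace Pool.Agent.UTR.H47

open Pool.Agent.Helper64_FR

/-- hypertrees -/
theorem peel_main (fin : FINStmt) (pel : PELStmt) (onu : ONUStmt) (n : ℕ) (hn : 2 ≤ n)
    (w : Finset (Fin n) → ℝ) (hw : ∀ B, 0 ≤ w B) (hp : Peel w Finset.univ)
    (α ρ : URep n) (hα : α.IsAdjoint) (hρ : ρ.Irred) (hnt : ¬ ∀ g : UU n, ρ.mat g = 1) :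
    α.lamMin w ≤ ρ.lamMin w := by
  obtain ⟨h1, h2⟩ := onu n hn α hα w hw
  exact fin n hn w hw _ (pel n w _ h2 _ hp h1) ρ hρ hnt

/-- forests -/
theorem tree_main (fin : FINStmt) (pel : PELStmt) (onu : ONUStmt) (tre : TREStmt) (n : ℕ)
    (hn : 2 ≤ n) (G : SimpleGraph (Fin n)) (hG : G.IsAcyclic)
    (w : Finset (Fin n) → ℝ) (hw : ∀ B, 0 ≤ w B)
    (hs : ∀ B, w B ≠ 0 → 2 ≤ B.card → ∃ i j, G.Adj i j ∧ B = {i, j})
    (α ρ : URep n) (hα : α.IsAdjoint) (hρ : ρ.Irred) (hnt : ¬ ∀ g : UU n, ρ.mat g = 1) :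
    α.lamMin w ≤ ρ.lamMin w :=
  peel_main fin pel onu n hn w hw
    (tre n G hG w hs Finset.univ ⟨⟨0, by omega⟩, Finset.mem_univ _⟩) α ρ hα hρ hnt

end Pool.Agent.UTR.H47
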